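import Pool.Agent.W788.NW.Stm

/-!
# Project NW, part WOD: decay of the variance
-/

namespace Pool.Agent.W701.NW.Wod

open Finset Pool.Agent.W788.NV Pool.Agent.W788.NW

theorem wod_ (h : MK) (h1 : S_VAR) (h2 : S_WO1) (h3 : S_MAIN) (_h4 : S_LAW) (h5 : S_TOT) :
    S_WOD := by
  intro V _ _ G q θ Δ η S ω hy x0 g s r M hs hr hM hg
  have hq2 := hy.q2
  have ht0 := hy.t0
  have ht1 := hy.t1
  have hD1 := hy.D1
  have hrn : ∀ e : (V × Fin q) ⊕ (V × V), 0 ≤ mrate G q θ e :=
    (h5 V G q θ (by omega) ht0.le ht1.le hy.d1).1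
  -- positivity of the constant
  have hc : 0 < cV q θ Δ η S := by
    unfold cV cN
    have hq0 : (0 : ℝ) < (q : ℝ) := by
      have : (2 : ℝ) ≤ (q : ℝ) := by exact_mod_cast hq2
      linarith
    have hd0 : (0 : ℝ) < (Δ : ℝ) := by
      have : (1 : ℝ) ≤ (Δ : ℝ) := by exact_mod_cast hD1
      linarith
    have he := Real.exp_pos (4 * (q : ℝ) ^ 2 * cE q θ Δ η S * Δ * S / θ)
    positivity
  set c := cV q θ Δ η S with hcdef
  -- the function W
  set T : ℝ := s + r with hT
  set W : ℝ → ℝ := fun u => pt G q θ u (fun x => (pt G q θ (T - u) g x) ^ 2) x0 with hW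
  set D : ℝ → ℝ := fun u => pt G q θ u
        (gam (mrate G q θ) (act (V := V) (q := q)) (pt G q θ (T - u) g)) x0 with hD
  have hWd : ∀ u, HasDerivAt W (D u) u := by
    intro u
    exact h1 (V → Fin q) ((V × Fin q) ⊕ (V × V)) (mrate G q θ) (act (V := V) (q := q)) g x0 T u
  have hwo : ∀ u, 1 ≤ u → u ≤ T → W u - W 1 ≤ c * D u := by
    intro u hu1 huT
    exact h2 V G q θ Δ η S ω hy x0 g T u hu1 huT
  -- monotone function
  have hpsi : ∀ u, HasDerivAt (fun u => Real.exp (-u / c) * (W u - W 1))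
      (Real.exp (-u / c) * (-1 / c) * (W u - W 1) + Real.exp (-u / c) * D u) u := by
    intro u
    have he : HasDerivAt (fun u : ℝ => Real.exp (-u / c)) (Real.exp (-u / c) * (-1 / c)) u := by
      have h0 : HasDerivAt (fun u : ℝ => -u / c) (-1 / c) u :=
        ((hasDerivAt_id u).neg).div_const c
      exact h0.exp
    exact he.mul ((hWd u).sub_const (W 1))
  have hmono : MonotoneOn (fun u => Real.exp (-u / c) * (W u - W 1)) (Set.Icc 1 T) := by
    apply monotoneOn_of_deriv_nonneg (convex_Icc 1 T)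
    · intro u _
      exact (hpsi u).continuousAt.continuousWithinAt
    · intro u _
      exact (hpsi u).differentiableAt.differentiableWithinAt
    · intro u hu
      rw [interior_Icc] at hu
      rw [(hpsi u).deriv]
      have h6 := hwo u hu.1.le hu.2.le
      have h7 := Real.exp_pos (-u / c)
      have h8 : Real.exp (-u / c) * (-1 / c) * (W u - W 1) + Real.exp (-u / c) * D u =
          Real.exp (-u / c) / c * (c * D u - (W u - W 1)) := by
        field_simp
        ring
      rw [h8]
      apply mul_nonneg (by positivity)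
      linarith
  have hsT : s ≤ T := by rw [hT]; linarith
  have hkey : Real.exp (-s / c) * (W s - W 1) ≤ Real.exp (-T / c) * (W T - W 1) :=
    hmono ⟨hs, hsT⟩ ⟨hs.trans hsT, le_refl T⟩ hsT
  -- the values at T and 1
  have hWT : W T ≤ 1 := by
    have h9 : W T = pt G q θ T (fun x => (g x) ^ 2) x0 := by
      simp only [hW, sub_self]
      have : pt G q θ 0 g = g := h.zero _ _ _ _ _
      rw [this]
    rw [h9]
    have h10 : pt G q θ T (fun x => (g x) ^ 2) x0 ≤ pt G q θ T (fun _ => (1 : ℝ)) x0 := by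
      apply h.mono _ _ _ _ _ _ _ _ hrn (by linarith)
      intro y
      have := hg y
      nlinarith [this.1, this.2]
    have h11 : pt G q θ T (fun _ => (1 : ℝ)) x0 = 1 := h.cst _ _ _ _ _ _ _
    linarith
  have hW1 : 0 ≤ W 1 := by
    have h10 : pt G q θ 1 (fun _ => (0 : ℝ)) x0 ≤ W 1 := by
      apply h.mono _ _ _ _ _ _ _ _ hrn (by norm_num)
      intro y
      positivity
    have h11 : pt G q θ 1 (fun _ => (0 : ℝ)) x0 = 0 := h.cst _ _ _ _ _ _ _
    linarith
  have hws : W s - W 1 ≤ Real.exp (-r / c) := by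
    have h12 : Real.exp (-T / c) * (W T - W 1) ≤ Real.exp (-T / c) := by
      have := Real.exp_pos (-T / c)
      nlinarith
    have h13 : Real.exp (-T / c) = Real.exp (-s / c) * Real.exp (-r / c) := by
      rw [← Real.exp_add]
      congr 1
      rw [hT]
      field_simp
      ring
    have h14 := Real.exp_pos (-s / c)
    have h15 : Real.exp (-s / c) * (W s - W 1) ≤ Real.exp (-s / c) * Real.exp (-r / c) := by
      rw [← h13]; linarith
    exact le_of_mul_le_mul_left h15 h14
  -- the bracket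
  have hmain := h3 V G q θ Δ (by omega) ht0 ht1.le hy.d1 hy.dD 1 (s + r - 1) M g x0
    (by norm_num) (by linarith) hM hg
  have hadd1 : pt G q θ s (pt G q θ r g) = pt G q θ T g := by
    have := h.add (V → Fin q) ((V × Fin q) ⊕ (V × V)) (mrate G q θ) (act (V := V) (q := q)) g s r
    exact this.symm
  have hadd2 : pt G q θ 1 (pt G q θ (s + r - 1) g) = pt G q θ T g := by
    have := h.add (V → Fin q) ((V × Fin q) ⊕ (V × V)) (mrate G q θ) (act (V := V) (q := q)) g 1
      (s + r - 1)
    have h16 : (1 : ℝ) + (s + r - 1) = T := by rw [hT]; ring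
    rw [h16] at this
    exact this.symm
  have hWs : W s = pt G q θ s (fun x => (pt G q θ r g x) ^ 2) x0 := by
    have h17 : T - s = r := by rw [hT]; ring
    simp only [hW, h17]
  have hW1' : W 1 = pt G q θ 1 (fun x => (pt G q θ (s + r - 1) g x) ^ 2) x0 := by
    simp only [hW, hT]
  rw [hadd2, ← hW1'] at hmain
  rw [hadd1, ← hWs]
  have h18 : (1 : ℝ) * (Fintype.card V : ℝ) * Real.exp (θ / 2 - θ * M / (2 * Δ)) =
      (Fintype.card V : ℝ) * Real.exp (θ / 2 - θ * M / (2 * Δ)) := by ring
  rw [h18] at hmain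
  linarith

end Pool.Agent.W701.NW.Wod
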